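import Pool.Agent.K1H32.FE.Stm

/-! # No small elements, and equalities between words (piece `S_EVEQ`) -/

set_option autoImplicit false

open Filter Topology Pool.Agent.K1H32.FE

namespace Pool.Agent.K1H96.FE.Eveq

/-- distance to the identity -/
def dd (g : SL) : ℝ := |g 0 0 - 1| + |g 0 1| + |g 1 0| + |g 1 1 - 1|

theorem dd_nonneg (g : SL) : 0 ≤ dd g := by unfold dd; positivity

theorem mul_ent (A B : SL) (i j : Fin 2) : (A * B) i j = A i 0 * B 0 j + A i 1 * B 1 j := by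
  show ((A * B : SL) : Matrix (Fin 2) (Fin 2) ℝ) i j = _
  rw [Matrix.SpecialLinearGroup.coe_mul, Matrix.mul_apply, Fin.sum_univ_two]

theorem cont_ent (i j : Fin 2) : Continuous fun g : SL => g i j :=
  (continuous_apply j).comp ((continuous_apply i).comp continuous_subtype_val)

theorem dd_cont : Continuous dd := by
  unfold dd
  have := cont_ent
  fun_prop

theorem dd_one : dd 1 = 0 := by
  simp [dd]

theorem ext2 (A B : SL) (h00 : A 0 0 = B 0 0) (h01 : A 0 1 = B 0 1) (h10 : A 1 0 = B 1 0)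
    (h11 : A 1 1 = B 1 1) : A = B := by
  ext i j
  fin_cases i <;> fin_cases j
  · exact h00
  · exact h01
  · exact h10
  · exact h11

theorem dd_eq {g : SL} (h : dd g ≤ 0) : g = 1 := by
  have h1 := abs_nonneg (g 0 0 - 1)
  have h2 := abs_nonneg (g 0 1)
  have h3 := abs_nonneg (g 1 0)
  have h4 := abs_nonneg (g 1 1 - 1)
  unfold dd at h
  have e1 : g 0 0 - 1 = 0 := abs_eq_zero.1 (by linarith)
  have e2 : g 0 1 = 0 := abs_eq_zero.1 (by linarith)
  have e3 : g 1 0 = 0 := abs_eq_zero.1 (by linarith)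
  have e4 : g 1 1 - 1 = 0 := abs_eq_zero.1 (by linarith)
  refine ext2 _ _ ?_ ?_ ?_ ?_
  · simp only [Matrix.SpecialLinearGroup.coe_one, Matrix.one_apply_eq]; linarith
  · simp [e2]
  · simp [e3]
  · simp only [Matrix.SpecialLinearGroup.coe_one, Matrix.one_apply_eq]; linarith

theorem dd_sq (g : SL) : dd (g * g) ≤ 2 * dd g + dd g ^ 2 ∧ 2 * dd g ≤ dd (g * g) + dd g ^ 2 := by
  obtain ⟨a, ha⟩ : ∃ a, a = g 0 0 - 1 := ⟨_, rfl⟩
  obtain ⟨b, hb⟩ : ∃ b, b = g 0 1 := ⟨_, rfl⟩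
  obtain ⟨c, hc⟩ : ∃ c, c = g 1 0 := ⟨_, rfl⟩
  obtain ⟨e, he⟩ : ∃ e, e = g 1 1 - 1 := ⟨_, rfl⟩
  have e1 : dd (g * g) = |2 * a + (a * a + b * c)| + |2 * b + (a * b + b * e)| +
      |2 * c + (c * a + e * c)| + |2 * e + (c * b + e * e)| := by
    unfold dd
    rw [mul_ent, mul_ent, mul_ent, mul_ent, ha, hb, hc, he]
    congr 1
    · congr 1
      · congr 1
        · congr 1; ring
        · congr 1; ring
      · congr 1; ring
    · congr 1; ring
  have e2 : dd g = |a| + |b| + |c| + |e| := by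
    unfold dd
    rw [ha, hb, hc, he]
  rw [e1, e2]
  have m1 : |a * a + b * c| ≤ |a| * |a| + |b| * |c| := by
    rw [← abs_mul, ← abs_mul]; exact abs_add_le _ _
  have m2 : |a * b + b * e| ≤ |a| * |b| + |b| * |e| := by
    rw [← abs_mul, ← abs_mul]; exact abs_add_le _ _
  have m3 : |c * a + e * c| ≤ |c| * |a| + |e| * |c| := by
    rw [← abs_mul, ← abs_mul]; exact abs_add_le _ _
  have m4 : |c * b + e * e| ≤ |c| * |b| + |e| * |e| := by
    rw [← abs_mul, ← abs_mul]; exact abs_add_le _ _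
  have hA := abs_nonneg a
  have hB := abs_nonneg b
  have hC := abs_nonneg c
  have hE := abs_nonneg e
  have tot : |a| * |a| + |b| * |c| + (|a| * |b| + |b| * |e|) + (|c| * |a| + |e| * |c|) +
      (|c| * |b| + |e| * |e|) ≤ (|a| + |b| + |c| + |e|) ^ 2 := by
    nlinarith [mul_nonneg hA hB, mul_nonneg hA hC, mul_nonneg hA hE, mul_nonneg hB hC,
      mul_nonneg hB hE, mul_nonneg hC hE, mul_nonneg hB hB, mul_nonneg hC hC]
  have two : ∀ x : ℝ, |2 * x| = 2 * |x| := fun x => by rw [abs_mul, abs_two]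
  constructor
  · have n1 := abs_add_le (2 * a) (a * a + b * c)
    have n2 := abs_add_le (2 * b) (a * b + b * e)
    have n3 := abs_add_le (2 * c) (c * a + e * c)
    have n4 := abs_add_le (2 * e) (c * b + e * e)
    rw [two] at n1 n2 n3 n4
    linarith
  · have n0 : ∀ x y : ℝ, 2 * |x| ≤ |2 * x + y| + |y| := fun x y => by
      rw [← two]
      have := abs_add_le (2 * x + y) (-y)
      rw [abs_neg] at this
      have h : 2 * x + y + -y = 2 * x := by ring
      rw [h] at this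
      exact this
    have n1 := n0 a (a * a + b * c)
    have n2 := n0 b (a * b + b * e)
    have n3 := n0 c (c * a + e * c)
    have n4 := n0 e (c * b + e * e)
    linarith

/-- some doubling leaves the ball -/
theorem doubling (z : SL) (hz : z ≠ 1) (c : ℝ) (hc : c ≤ 1 / 4) (hzc : dd z < c) :
    ∃ i : ℕ, c ≤ dd (z ^ 2 ^ i) ∧ dd (z ^ 2 ^ i) ≤ 2 * c + c ^ 2 := by
  have hc0 : 0 ≤ c := (dd_nonneg z).trans hzc.le
  have hex : ∃ i : ℕ, c ≤ dd (z ^ 2 ^ i) := by
    by_contra hno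
    push Not at hno
    have h1 : ∀ i : ℕ, dd (z ^ 2 ^ i) ≤ 4 / 7 * dd (z ^ 2 ^ (i + 1)) := by
      intro i
      have h2 := (dd_sq (z ^ 2 ^ i)).2
      have h3 : z ^ 2 ^ i * z ^ 2 ^ i = z ^ 2 ^ (i + 1) := by
        rw [← pow_add]; congr 1; ring
      rw [h3] at h2
      have h4 := hno i
      have h5 := dd_nonneg (z ^ 2 ^ i)
      nlinarith
    have h2 : ∀ i : ℕ, dd z ≤ (4 / 7) ^ i * dd (z ^ 2 ^ i) := by
      intro i
      induction i with
      | zero => simp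
      | succ i ih =>
        refine ih.trans ?_
        have h3 := mul_le_mul_of_nonneg_left (h1 i) (by positivity : (0 : ℝ) ≤ (4 / 7) ^ i)
        refine h3.trans (le_of_eq ?_)
        ring
    have h3 : dd z ≤ 0 := by
      have h4 : Tendsto (fun i : ℕ => (4 / 7 : ℝ) ^ i * c) atTop (𝓝 (0 * c)) :=
        (tendsto_pow_atTop_nhds_zero_of_lt_one (by norm_num) (by norm_num)).mul_const c
      rw [zero_mul] at h4
      refine ge_of_tendsto' h4 fun i => (h2 i).trans ?_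
      exact mul_le_mul_of_nonneg_left (hno i).le (by positivity)
    exact hz (dd_eq h3)
  classical
  refine ⟨Nat.find hex, Nat.find_spec hex, ?_⟩
  obtain ⟨j, hj⟩ : ∃ j, Nat.find hex = j + 1 := by
    have : Nat.find hex ≠ 0 := by
      intro h0
      have := Nat.find_spec hex
      rw [h0] at this
      simp only [pow_zero, pow_one] at this
      linarith
    exact ⟨Nat.find hex - 1, by omega⟩
  rw [hj]
  have h1 : dd (z ^ 2 ^ j) < c := not_le.1 (Nat.find_min hex (by omega))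
  have h2 := (dd_sq (z ^ 2 ^ j)).1
  have h3 : z ^ 2 ^ j * z ^ 2 ^ j = z ^ 2 ^ (j + 1) := by
    rw [← pow_add]; congr 1; ring
  rw [h3] at h2
  have h5 := dd_nonneg (z ^ 2 ^ j)
  nlinarith

theorem tends_ent {α : Type} (l : Filter α) (g : α → SL) (z : SL)
    (h : ∀ i j, Tendsto (fun a => g a i j) l (𝓝 (z i j))) : Tendsto g l (𝓝 z) := by
  have h1 : Topology.IsInducing (fun g : SL => (g : Matrix (Fin 2) (Fin 2) ℝ)) :=
    Topology.IsInducing.subtypeVal
  refine h1.tendsto_nhds_iff.2 ?_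
  exact tendsto_pi_nhds.2 fun i => tendsto_pi_nhds.2 fun j => h i j

theorem tends_of_dd {α : Type} (l : Filter α) (g : α → SL)
    (h : Tendsto (fun a => dd (g a)) l (𝓝 0)) : Tendsto g l (𝓝 1) := by
  refine tends_ent l g 1 fun i j => ?_
  have hd : ∀ a, |g a i j - (1 : SL) i j| ≤ dd (g a) := by
    intro a
    have h1 := abs_nonneg (g a 0 0 - 1)
    have h2 := abs_nonneg (g a 0 1)
    have h3 := abs_nonneg (g a 1 0)
    have h4 := abs_nonneg (g a 1 1 - 1)
    unfold dd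
    fin_cases i <;> fin_cases j <;> simp <;> linarith
  have : Tendsto (fun a => g a i j - (1 : SL) i j) l (𝓝 0) :=
    squeeze_zero_norm (fun a => by rw [Real.norm_eq_abs]; exact hd a) h
  have h2 := this.add_const ((1 : SL) i j)
  simp only [sub_add_cancel, zero_add] at h2
  exact h2

theorem disc_ball (Γ : Subgroup SL) (hΓ : DiscreteTopology Γ) :
    ∃ δ : ℝ, 0 < δ ∧ ∀ g ∈ Γ, dd g < δ → g = 1 := by
  have hopen : ∃ U ∈ 𝓝 (1 : SL), ∀ g ∈ U, g ∈ Γ → g = 1 := by
    have h1 : ({1} : Set Γ) ∈ 𝓝 (1 : Γ) := by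
      rw [nhds_discrete]
      exact Set.mem_singleton _
    rw [nhds_subtype_eq_comap, Filter.mem_comap] at h1
    obtain ⟨U, hU, hUs⟩ := h1
    refine ⟨U, hU, fun g hg hgΓ => ?_⟩
    have : (⟨g, hgΓ⟩ : Γ) ∈ ({1} : Set Γ) := hUs hg
    exact congrArg Subtype.val this
  obtain ⟨U, hU, hUs⟩ := hopen
  by_contra hno
  push Not at hno
  have h1 : ∀ n : ℕ, ∃ g ∈ Γ, dd g < 1 / ((n : ℝ) + 1) ∧ g ≠ 1 := fun n =>
    hno _ (by positivity)
  choose g hg hgd hg1 using h1
  have h2 : Tendsto g atTop (𝓝 1) := by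
    refine tends_of_dd _ _ ?_
    exact squeeze_zero (fun n => dd_nonneg _) (fun n => (hgd n).le)
      tendsto_one_div_add_atTop_nhds_zero_nat
  obtain ⟨n, hn⟩ := (h2.eventually hU).exists
  exact hg1 n (hUs _ hn (hg n))

theorem compact_seq (C : ℝ) (y : ℕ → SL) (hy : ∀ k, dd (y k) ≤ C) :
    ∃ (z : SL) (ψ : ℕ → ℕ), StrictMono ψ ∧ Tendsto (y ∘ ψ) atTop (𝓝 z) := by
  have hK : IsCompact (Set.pi Set.univ fun _ : Fin 2 => Set.pi Set.univ fun _ : Fin 2 =>
      Set.Icc (-(C + 1)) (C + 1)) :=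
    isCompact_univ_pi fun _ => isCompact_univ_pi fun _ => isCompact_Icc
  have hmem : ∀ k, (fun i j => y k i j) ∈ (Set.pi Set.univ fun _ : Fin 2 =>
      Set.pi Set.univ fun _ : Fin 2 => Set.Icc (-(C + 1)) (C + 1)) := by
    intro k i _ j _
    have h := hy k
    have h1 := abs_nonneg (y k 0 0 - 1)
    have h2 := abs_nonneg (y k 0 1)
    have h3 := abs_nonneg (y k 1 0)
    have h4 := abs_nonneg (y k 1 1 - 1)
    unfold dd at h
    have e1 := abs_le.1 (show |y k 0 0 - 1| ≤ C by linarith)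
    have e2 := abs_le.1 (show |y k 0 1| ≤ C by linarith)
    have e3 := abs_le.1 (show |y k 1 0| ≤ C by linarith)
    have e4 := abs_le.1 (show |y k 1 1 - 1| ≤ C by linarith)
    fin_cases i <;> fin_cases j <;> simp only [Set.mem_Icc] <;> constructor <;>
      simp only [Fin.zero_eta, Fin.mk_one, Fin.isValue] <;> linarith
  obtain ⟨B, _, ψ, hψ, hB⟩ := hK.tendsto_subseq hmem
  have hBij : ∀ i j, Tendsto (fun k => y (ψ k) i j) atTop (𝓝 (B i j)) := fun i j =>
    (tendsto_pi_nhds.1 ((tendsto_pi_nhds.1 hB) i)) j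
  have hdet : B 0 0 * B 1 1 - B 0 1 * B 1 0 = 1 := by
    have h1 := ((hBij 0 0).mul (hBij 1 1)).sub ((hBij 0 1).mul (hBij 1 0))
    have h2 : (fun k => y (ψ k) 0 0 * y (ψ k) 1 1 - y (ψ k) 0 1 * y (ψ k) 1 0) = fun _ => 1 := by
      funext k
      exact det2 _
    rw [h2] at h1
    exact tendsto_nhds_unique h1 tendsto_const_nhds |>.symm ▸ rfl
  refine ⟨⟨Matrix.of B, by rw [Matrix.det_fin_two]; exact hdet⟩, ψ, hψ, ?_⟩
  exact tends_ent _ _ _ fun i j => hBij i j

section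

variable {ι : Type} [Fintype ι] {Γn : ℕ → Subgroup SL} {Γ : Subgroup SL} {σ : ι → SL} {m : ι → ℝ}
    {κ : ℕ → Type} [∀ n, Fintype (κ n)] {τ : ∀ n, κ n → SL} {r : ∀ n, κ n → ℝ}
    {e : ∀ n, ι → κ n}

theorem noSmall (h : Conv Γn Γ σ m κ τ r e) :
    ∃ δ : ℝ, 0 < δ ∧ ∀ᶠ n in atTop, ∀ z ∈ Γn n, dd z < δ → z = 1 := by
  obtain ⟨δ, hδ, hΓ⟩ := disc_ball Γ h.disc
  obtain ⟨c, hc⟩ : ∃ c, c = min (1 / 4) (δ / 4) := ⟨_, rfl⟩
  have hc1 : c ≤ 1 / 4 := hc ▸ min_le_left _ _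
  have hc2 : c ≤ δ / 4 := hc ▸ min_le_right _ _
  have hc0 : 0 < c := by rw [hc]; exact lt_min (by norm_num) (by positivity)
  refine ⟨c, hc0, ?_⟩
  by_contra hno
  rw [Filter.not_eventually] at hno
  have h1 : ∃ᶠ n in atTop, ∃ y ∈ Γn n, c ≤ dd y ∧ dd y ≤ 2 * c + c ^ 2 := by
    refine hno.mono fun n hn => ?_
    push Not at hn
    obtain ⟨z, hz, hzc, hz1⟩ := hn
    obtain ⟨i, hi1, hi2⟩ := doubling z hz1 c hc1 hzc
    exact ⟨_, (Γn n).pow_mem hz _, hi1, hi2⟩
  obtain ⟨φ, hφ, hy⟩ := Filter.extraction_of_frequently_atTop h1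
  choose y hyΓ hy1 hy2 using hy
  obtain ⟨z, ψ, hψ, hz⟩ := compact_seq _ y hy2
  have hzΓ : z ∈ Γ := h.lim (φ ∘ ψ) (y ∘ ψ) z (hφ.comp hψ) (fun k => hyΓ (ψ k)) hz
  have hdz := (dd_cont.tendsto z).comp hz
  have g1 : c ≤ dd z := ge_of_tendsto' hdz fun k => hy1 (ψ k)
  have g2 : dd z ≤ 2 * c + c ^ 2 := le_of_tendsto' hdz fun k => hy2 (ψ k)
  have g3 : z = 1 := hΓ z hzΓ (by nlinarith)
  rw [g3, dd_one] at g1
  linarith

omit [Fintype ι] in
theorem wx_succ {G : Type} [Group G] (s : ι → G) (k : ℕ) (w : Fin (k + 1) → ι) :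
    wx s (k + 1) w = s (w 0) * wx s k (fun i => w i.succ) := by
  unfold wx
  rw [List.ofFn_succ, List.prod_cons]

theorem wx_tendsto {s : ℕ → ι → SL} (hs : ∀ i, Tendsto (fun n => s n i) atTop (𝓝 (σ i)))
    (k : ℕ) : ∀ w : Fin k → ι, Tendsto (fun n => wx (s n) k w) atTop (𝓝 (wx σ k w)) := by
  induction k with
  | zero =>
    intro w
    simp only [wx, List.ofFn_zero, List.prod_nil]
    exact tendsto_const_nhds
  | succ k ih =>
    intro w
    simp only [wx_succ]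
    exact (hs (w 0)).mul (ih _)

theorem wx_mem {s : ι → SL} {H : Subgroup SL} (hs : ∀ i, s i ∈ H) (k : ℕ) :
    ∀ w : Fin k → ι, wx s k w ∈ H := by
  induction k with
  | zero =>
    intro w
    simp only [wx, List.ofFn_zero, List.prod_nil]
    exact H.one_mem
  | succ k ih =>
    intro w
    rw [wx_succ]
    exact H.mul_mem (hs _) (ih _)

end

theorem t_EVEQ : S_EVEQ := by
  intro ι _ Γn Γ σ m κ _ τ r e h k
  obtain ⟨δ, hδ, hsm⟩ := noSmall h
  rw [Filter.eventually_all]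
  intro w
  rw [Filter.eventually_all]
  intro w'
  have hw := wx_tendsto (σ := σ) (s := fun n i => τ n (e n i)) h.letters k w
  have hw' := wx_tendsto (σ := σ) (s := fun n i => τ n (e n i)) h.letters k w'
  have hz := (dd_cont.tendsto _).comp (hw.inv.mul hw')
  by_cases heq : wx σ k w = wx σ k w'
  · rw [heq, inv_mul_cancel, dd_one] at hz
    filter_upwards [hsm, hz.eventually (gt_mem_nhds hδ)] with n h1 h2
    refine ⟨fun _ => heq, fun _ => ?_⟩
    have h3 := h1 ((wx (fun i => τ n (e n i)) k w)⁻¹ * wx (fun i => τ n (e n i)) k w')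
      ((Γn n).mul_mem ((Γn n).inv_mem (wx_mem (fun i => h.mem_n n _) k w))
        (wx_mem (fun i => h.mem_n n _) k w')) h2
    rw [inv_mul_eq_one] at h3
    exact h3
  · have hpos : 0 < dd ((wx σ k w)⁻¹ * wx σ k w') := by
      by_contra hno
      have := dd_eq (not_lt.1 hno)
      rw [inv_mul_eq_one] at this
      exact heq this
    filter_upwards [hz.eventually (lt_mem_nhds hpos)] with n h2
    refine ⟨fun h3 => ?_, fun h3 => absurd h3 heq⟩
    exfalso
    simp only [Function.comp] at h2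
    rw [h3, inv_mul_cancel, dd_one] at h2
    exact lt_irrefl _ h2

end Pool.Agent.K1H96.FE.Eveq
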