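import Pool.Agent.K1H32.FE.Stm

/-! # Discrete groups with a finite invariant set of directions (piece `S_VAB`) -/

set_option autoImplicit false
set_option linter.unusedSimpArgs false

open Filter Topology Pool.Agent.K1H32.FE

namespace Pool.Agent.K1H96.FE

/-- upper triangular matrices -/
noncomputable def tri (t b : ℝ) (ht : 0 < t) : SL :=
  ⟨!![t, b; 0, t⁻¹], by rw [Matrix.det_fin_two_of]; simp [mul_inv_cancel₀ ht.ne']⟩

/-- unipotent matrices -/
def uu (b : ℝ) : SL := ⟨!![1, b; 0, 1], by rw [Matrix.det_fin_two_of]; simp⟩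

/-- the rotation -/
def kx (x : K) : SL :=
  ⟨!![x.1.1, -x.1.2; x.1.2, x.1.1], by rw [Matrix.det_fin_two_of]; nlinarith [x.2]⟩

theorem mul_ent (A B : SL) (i j : Fin 2) : (A * B) i j = A i 0 * B 0 j + A i 1 * B 1 j := by
  show ((A * B : SL) : Matrix (Fin 2) (Fin 2) ℝ) i j = _
  rw [Matrix.SpecialLinearGroup.coe_mul, Matrix.mul_apply, Fin.sum_univ_two]

theorem tri00 (t b : ℝ) (ht : 0 < t) : tri t b ht 0 0 = t := rfl
theorem tri01 (t b : ℝ) (ht : 0 < t) : tri t b ht 0 1 = b := rfl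
theorem tri10 (t b : ℝ) (ht : 0 < t) : tri t b ht 1 0 = 0 := rfl
theorem tri11 (t b : ℝ) (ht : 0 < t) : tri t b ht 1 1 = t⁻¹ := rfl
theorem uu00 (b : ℝ) : uu b 0 0 = 1 := rfl
theorem uu01 (b : ℝ) : uu b 0 1 = b := rfl
theorem uu10 (b : ℝ) : uu b 1 0 = 0 := rfl
theorem uu11 (b : ℝ) : uu b 1 1 = 1 := rfl

theorem ext2 (A B : SL) (h00 : A 0 0 = B 0 0) (h01 : A 0 1 = B 0 1) (h10 : A 1 0 = B 1 0)
    (h11 : A 1 1 = B 1 1) : A = B := by
  ext i j
  fin_cases i <;> fin_cases j
  · exact h00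
  · exact h01
  · exact h10
  · exact h11

theorem tri_inv (t b : ℝ) (ht : 0 < t) : (tri t b ht)⁻¹ = tri t⁻¹ (-b) (inv_pos.2 ht) := by
  rw [inv_eq_iff_mul_eq_one]
  have := ht.ne'
  refine ext2 _ _ ?_ ?_ ?_ ?_ <;>
    simp only [mul_ent, tri00, tri01, tri10, tri11, Matrix.SpecialLinearGroup.coe_one,
      Matrix.one_apply_eq, Matrix.one_apply_ne, ne_eq, Fin.isValue, zero_ne_one, one_ne_zero,
      not_false_eq_true]
  · field_simp
    simp
  · field_simp
    ring
  · ring
  · field_simp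
    simp

theorem tri_conj (t a b : ℝ) (ht : 0 < t) :
    tri t a ht * uu b * (tri t a ht)⁻¹ = uu (t ^ 2 * b) := by
  rw [tri_inv]
  have := ht.ne'
  refine ext2 _ _ ?_ ?_ ?_ ?_ <;>
    simp only [mul_ent, tri00, tri01, tri10, tri11, uu00, uu01, uu10, uu11] <;> field_simp <;>
    try ring

theorem tri_comm (t a s b : ℝ) (ht : 0 < t) (hs : 0 < s) : ∃ c,
    tri t a ht * tri s b hs * (tri t a ht)⁻¹ * (tri s b hs)⁻¹ = uu c := by
  rw [tri_inv, tri_inv]
  have := ht.ne'
  have := hs.ne'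
  refine ⟨(tri t a ht * tri s b hs * tri t⁻¹ (-a) (inv_pos.2 ht) *
      tri s⁻¹ (-b) (inv_pos.2 hs)) 0 1, ext2 _ _ ?_ ?_ ?_ ?_⟩
  · simp only [mul_ent, tri00, tri01, tri10, tri11, uu00, uu01, uu10, uu11]
    field_simp
    try ring
  · rw [uu01]
  · simp only [mul_ent, tri00, tri01, tri10, tri11, uu00, uu01, uu10, uu11]
    ring
  · simp only [mul_ent, tri00, tri01, tri10, tri11, uu00, uu01, uu10, uu11]
    field_simp
    try ring

theorem uu_cont : Continuous uu := by
  refine Continuous.subtype_mk ?_ _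
  refine continuous_matrix fun i j => ?_
  fin_cases i <;> fin_cases j <;> simp <;> fun_prop

theorem uu_zero : uu 0 = 1 := by
  ext i j
  fin_cases i <;> fin_cases j <;> simp [uu]

theorem exists_tri (x : K) (g : SL) (hx : act g x = x) : ∃ (t b : ℝ) (ht : 0 < t),
    g = kx x * tri t b ht * (kx x)⁻¹ := by
  obtain ⟨M, hM⟩ : ∃ M : SL, M = (kx x)⁻¹ * g * kx x := ⟨_, rfl⟩
  have h1 : (mv g x).1 = rr g x * x.1.1 := by
    have := congrArg (fun v : K => v.1.1) hx
    have h2 : (mv g x).1 / rr g x = x.1.1 := this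
    rw [div_eq_iff (rr_pos g x).ne'] at h2
    rw [h2]
    ring
  have h2 : (mv g x).2 = rr g x * x.1.2 := by
    have := congrArg (fun v : K => v.1.2) hx
    have h2 : (mv g x).2 / rr g x = x.1.2 := this
    rw [div_eq_iff (rr_pos g x).ne'] at h2
    rw [h2]
    ring
  simp only [mv] at h1 h2
  have hx2 := x.2
  have e0 : M 0 0 = rr g x := by
    rw [hM, Matrix.SpecialLinearGroup.coe_mul, Matrix.SpecialLinearGroup.coe_mul,
      Matrix.SpecialLinearGroup.coe_inv, Matrix.adjugate_fin_two]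
    simp only [kx, Matrix.mul_apply, Fin.sum_univ_two, Matrix.of_apply, Matrix.cons_val',
      Matrix.cons_val_zero, Matrix.cons_val_one, Matrix.cons_val_fin_one]
    linear_combination x.1.1 * h1 + x.1.2 * h2 + rr g x * hx2
  have e1 : M 1 0 = 0 := by
    rw [hM, Matrix.SpecialLinearGroup.coe_mul, Matrix.SpecialLinearGroup.coe_mul,
      Matrix.SpecialLinearGroup.coe_inv, Matrix.adjugate_fin_two]
    simp only [kx, Matrix.mul_apply, Fin.sum_univ_two, Matrix.of_apply, Matrix.cons_val',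
      Matrix.cons_val_zero, Matrix.cons_val_one, Matrix.cons_val_fin_one]
    linear_combination (-x.1.2) * h1 + x.1.1 * h2
  have hd := det2 M
  rw [e1, e0, mul_zero, sub_zero] at hd
  have ht := rr_pos g x
  have e2 : M 1 1 = (rr g x)⁻¹ := by
    rw [eq_comm, inv_eq_iff_eq_inv, eq_comm]
    exact inv_eq_of_mul_eq_one_left hd
  refine ⟨rr g x, M 0 1, ht, ?_⟩
  have hMt : M = tri (rr g x) (M 0 1) ht := by
    ext i j
    fin_cases i <;> fin_cases j
    · exact e0
    · rfl
    · exact e1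
    · exact e2
  rw [← hMt, hM]
  group

theorem t_VAB (h : S_ACT) : S_VAB := by
  classical
  intro Γ F hΓ ⟨x, hxF⟩ hF
  have hmul : ∀ (g g' : SL) (v : K), act (g * g') v = act g (act g' v) := fun g g' v => by
    rw [h.1]; rfl
  have hone : ∀ v : K, act 1 v = v := fun v => by rw [h.2.1]; rfl
  let A : Subgroup SL :=
    { carrier := {g | g ∈ Γ ∧ act g x = x}
      mul_mem' := fun {a b} ha hb => ⟨Γ.mul_mem ha.1 hb.1, by rw [hmul, hb.2, ha.2]⟩
      one_mem' := ⟨Γ.one_mem, hone x⟩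
      inv_mem' := fun {a} ha => ⟨Γ.inv_mem ha.1, by
        have := hmul a⁻¹ a x
        rw [inv_mul_cancel, hone, ha.2] at this
        exact this.symm⟩ }
  have hA : ∀ g, g ∈ A ↔ g ∈ Γ ∧ act g x = x := fun g => Iff.rfl
  refine ⟨A, fun g hg => hg.1, ?_, ?_⟩
  · -- commutativity
    have key : (∃ (t a : ℝ) (ht : 0 < t), t < 1 ∧ kx x * tri t a ht * (kx x)⁻¹ ∈ Γ) →
        ∀ b : ℝ, kx x * uu b * (kx x)⁻¹ ∈ Γ → b = 0 := by
      rintro ⟨t, a, ht, ht1, hg⟩ b hb
      have hn : ∀ n : ℕ, kx x * uu ((t ^ 2) ^ n * b) * (kx x)⁻¹ ∈ Γ := by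
        intro n
        induction n with
        | zero => simpa using hb
        | succ n ih =>
          have h1 := Γ.mul_mem (Γ.mul_mem hg ih) (Γ.inv_mem hg)
          have h2 : kx x * tri t a ht * (kx x)⁻¹ * (kx x * uu ((t ^ 2) ^ n * b) * (kx x)⁻¹) *
              (kx x * tri t a ht * (kx x)⁻¹)⁻¹ =
              kx x * (tri t a ht * uu ((t ^ 2) ^ n * b) * (tri t a ht)⁻¹) * (kx x)⁻¹ := by
            group
          rw [h2, tri_conj] at h1
          have h3 : (t ^ 2) ^ (n + 1) * b = t ^ 2 * ((t ^ 2) ^ n * b) := by ring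
          rw [h3]
          exact h1
      have hlim : Tendsto (fun n : ℕ => kx x * uu ((t ^ 2) ^ n * b) * (kx x)⁻¹) atTop (𝓝 1) := by
        have h1 : Tendsto (fun n : ℕ => (t ^ 2) ^ n * b) atTop (𝓝 (0 * b)) :=
          (tendsto_pow_atTop_nhds_zero_of_lt_one (by positivity) (by nlinarith)).mul_const b
        rw [zero_mul] at h1
        have h2 : Continuous fun s : ℝ => kx x * uu s * (kx x)⁻¹ :=
          (continuous_const.mul uu_cont).mul continuous_const
        have h3 := (h2.tendsto 0).comp h1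
        rw [uu_zero, mul_one, mul_inv_cancel] at h3
        exact h3
      have hopen : ∃ U ∈ 𝓝 (1 : SL), ∀ g ∈ U, g ∈ Γ → g = 1 := by
        have h1 : ({1} : Set Γ) ∈ 𝓝 (1 : Γ) := by
          rw [nhds_discrete]
          exact Set.mem_singleton _
        rw [nhds_subtype_eq_comap, Filter.mem_comap] at h1
        obtain ⟨U, hU, hUs⟩ := h1
        refine ⟨U, hU, fun g hg hgΓ => ?_⟩
        have : (⟨g, hgΓ⟩ : Γ) ∈ ({1} : Set Γ) := hUs hg
        exact congrArg Subtype.val this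
      obtain ⟨U, hU, hUs⟩ := hopen
      obtain ⟨n, hnU⟩ := (hlim.eventually hU).exists
      have h4 := hUs _ hnU (hn n)
      have h5 : uu ((t ^ 2) ^ n * b) = 1 := by
        have : uu ((t ^ 2) ^ n * b) = (kx x)⁻¹ * (kx x * uu ((t ^ 2) ^ n * b) * (kx x)⁻¹) *
          kx x := by group
        rw [this, h4]
        group
      have h6 : (t ^ 2) ^ n * b = 0 := by
        have := congrArg (fun g : SL => g 0 1) h5
        simpa [uu] using this
      rcases mul_eq_zero.1 h6 with h7 | h7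
      · exact absurd h7 (by positivity)
      · exact h7
    intro g hg g' hg'
    obtain ⟨t, a, ht, hga⟩ := exists_tri x g hg.2
    obtain ⟨s, b, hs, hgb⟩ := exists_tri x g' hg'.2
    by_cases hex : ∃ (t a : ℝ) (ht : 0 < t), t < 1 ∧ kx x * tri t a ht * (kx x)⁻¹ ∈ Γ
    · obtain ⟨c, hc⟩ := tri_comm t a s b ht hs
      have h1 : g * g' * g⁻¹ * g'⁻¹ = kx x * uu c * (kx x)⁻¹ := by
        rw [← hc, hga, hgb]
        group
      have h2 : kx x * uu c * (kx x)⁻¹ ∈ Γ := by
        rw [← h1]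
        exact Γ.mul_mem (Γ.mul_mem (Γ.mul_mem hg.1 hg'.1) (Γ.inv_mem hg.1)) (Γ.inv_mem hg'.1)
      have h3 := key hex c h2
      rw [h3, uu_zero, mul_one, mul_inv_cancel] at h1
      have h4 : g * g' = g * g' * g⁻¹ * g'⁻¹ * (g' * g) := by group
      rw [h4, h1, one_mul]
    · have h1 : ∀ (t a : ℝ) (ht : 0 < t), kx x * tri t a ht * (kx x)⁻¹ ∈ Γ → t = 1 := by
        intro t a ht hg
        by_contra hne
        rcases lt_or_gt_of_ne hne with h2 | h2
        · exact hex ⟨t, a, ht, h2, hg⟩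
        · refine hex ⟨t⁻¹, -a, inv_pos.2 ht, inv_lt_one_of_one_lt₀ h2, ?_⟩
          have h3 := Γ.inv_mem hg
          rw [← tri_inv t a ht]
          have h4 : (kx x * tri t a ht * (kx x)⁻¹)⁻¹ = kx x * (tri t a ht)⁻¹ * (kx x)⁻¹ := by
            group
          rw [← h4]
          exact h3
      have ht1 := h1 t a ht (hga ▸ hg.1)
      have hs1 := h1 s b hs (hgb ▸ hg'.1)
      subst ht1
      subst hs1
      have h2 : tri 1 a ht * tri 1 b hs = tri 1 b hs * tri 1 a ht := by
        refine ext2 _ _ ?_ ?_ ?_ ?_ <;> simp only [mul_ent, tri00, tri01, tri10, tri11] <;> ring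
      rw [hga, hgb]
      have h3 : kx x * tri 1 a ht * (kx x)⁻¹ * (kx x * tri 1 b hs * (kx x)⁻¹) =
        kx x * (tri 1 a ht * tri 1 b hs) * (kx x)⁻¹ := by group
      rw [h3, h2]
      group
  · -- finite index
    letI : MulAction Γ K :=
      { smul := fun g v => act (g : SL) v
        one_smul := fun v => hone v
        mul_smul := fun g g' v => hmul g g' v }
    have hsm : ∀ (g : Γ) (v : K), g • v = act (g : SL) v := fun _ _ => rfl
    have h1 : A.subgroupOf Γ = MulAction.stabilizer Γ x := by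
      ext g
      rw [Subgroup.mem_subgroupOf, MulAction.mem_stabilizer_iff, hsm, hA]
      exact ⟨fun h => h.2, fun h => ⟨g.2, h⟩⟩
    rw [h1]
    constructor
    rw [MulAction.index_stabilizer]
    have h2 : MulAction.orbit Γ x ⊆ (F : Set K) := by
      rintro _ ⟨g, rfl⟩
      exact hF g g.2 x hxF
    have h3 : (MulAction.orbit Γ x).Finite := F.finite_toSet.subset h2
    intro h4
    rw [Set.ncard_eq_zero h3] at h4
    exact (MulAction.nonempty_orbit x).ne_empty h4

end Pool.Agent.K1H96.FE
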